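import Mathlib

set_option autoImplicit false

/-!
# Approximation degrees of finite flat algebras over `k[[t]]` are zero

Let `k` be algebraically closed (infinite is enough). Every finite flat `k[[t]]`-algebra has a
`k[[t]]`-basis all of whose structure constants are units of `k[[t]]`. Hence its approximation degree
is `0`, and the answers to both questions are positive.
-/

namespace Pool.Agent.Results.MP_a8f336_ag.DegreeZero

open PowerSeries TensorProduct

universe u v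

/-! ### Definitions -/

section Defs

variable (k : Type u) [Field k]

/-- the structure constant `c_{ij}^l` of the basis `e`: `e i * e j = ∑ l, c_{ij}^l • e l` -/
noncomputable def strConst {𝒜 : Type v} [CommRing 𝒜] [Algebra k⟦X⟧ 𝒜] {d : ℕ}
    (e : Module.Basis (Fin d) k⟦X⟧ 𝒜) (i j l : Fin d) : k⟦X⟧ := e.repr (e i * e j) l

/-- `ad (𝒜; e)`: the maximum of the valuations of the nonzero structure constants -/
noncomputable def adBasis {𝒜 : Type v} [CommRing 𝒜] [Algebra k⟦X⟧ 𝒜] {d : ℕ}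
    (e : Module.Basis (Fin d) k⟦X⟧ 𝒜) : ℕ :=
  sSup {m : ℕ | ∃ i j l : Fin d, strConst k e i j l ≠ 0 ∧ (strConst k e i j l).order = m}

/-- the approximation degree: the minimum of `ad (𝒜; e)` over all bases -/
noncomputable def approxDegree (𝒜 : Type v) [CommRing 𝒜] [Algebra k⟦X⟧ 𝒜] : ℕ :=
  sInf {m : ℕ | ∃ (d : ℕ) (e : Module.Basis (Fin d) k⟦X⟧ 𝒜), adBasis k e = m}

/-- `𝒜` is an abstract smoothing of `A`: a finite flat `k[[t]]`-algebra with geometrically reduced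
generic fibre and with special fibre isomorphic to `A` -/
structure IsAbstractSmoothing (A : Type v) [CommRing A] [Algebra k A] (𝒜 : Type v) [CommRing 𝒜]
    [Algebra k 𝒜] [Algebra k⟦X⟧ 𝒜] [IsScalarTower k k⟦X⟧ 𝒜] : Prop where
  finite : Module.Finite k⟦X⟧ 𝒜
  flat : Module.Flat k⟦X⟧ 𝒜
  reduced : IsReduced (AlgebraicClosure (LaurentSeries k) ⊗[(LaurentSeries k)] ((LaurentSeries k) ⊗[k⟦X⟧] 𝒜))
  special : Nonempty ((𝒜 ⧸ Ideal.span {algebraMap k⟦X⟧ 𝒜 X}) ≃ₐ[k] A)

/-- `𝒜` is completely split: its generic fibre is a product of `d` copies of `k((t))` -/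
def IsCompletelySplit (d : ℕ) (𝒜 : Type v) [CommRing 𝒜] [Algebra k⟦X⟧ 𝒜] : Prop :=
  Nonempty (((LaurentSeries k) ⊗[k⟦X⟧] 𝒜) ≃ₐ[(LaurentSeries k)] (Fin d → (LaurentSeries k)))

/-- `A`, of degree `d`, has a completely split abstract smoothing of approximation degree at most
`N` -/
def HasSplitSmoothing (A : Type v) [CommRing A] [Algebra k A] (N : ℕ∞) : Prop :=
  ∃ (𝒜 : Type v) (_ : CommRing 𝒜) (_ : Algebra k 𝒜) (_ : Algebra k⟦X⟧ 𝒜)
    (_ : IsScalarTower k k⟦X⟧ 𝒜), IsAbstractSmoothing k A 𝒜 ∧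
    IsCompletelySplit k (Module.finrank k A) 𝒜 ∧ (approxDegree k 𝒜 : ℕ∞) ≤ N

end Defs

/-! ### A basis with all structure constants different from zero -/

section Basis

variable {k : Type u} [Field k] [Infinite k]

omit [Field k] in
lemma exists_avoid (S : Finset k) : ∃ c : k, c ∉ S := Infinite.exists_notMem_finset S

lemma exists_kappa_aux (m : ℕ) : ∀ z : k, ∃ κ : Fin (m + 2) → k, ∑ l, κ l = z ∧
    ∀ l, κ l ≠ 0 ∧ κ l ≠ 1 ∧ κ l ≠ 2 := by
  classical
  induction m with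
  | zero =>
    intro z
    obtain ⟨c, hc⟩ := exists_avoid ({0, 1, 2, z, z - 1, z - 2} : Finset k)
    simp only [Finset.mem_insert, Finset.mem_singleton, not_or] at hc
    obtain ⟨h0, h1, h2, h3, h4, h5⟩ := hc
    refine ⟨![c, z - c], by simp, fun l => ?_⟩
    fin_cases l
    · exact ⟨h0, h1, h2⟩
    · refine ⟨fun h => h3 ?_, fun h => h4 ?_, fun h => h5 ?_⟩
      · simp at h; linear_combination -h
      · simp at h; linear_combination -h
      · simp at h; linear_combination -h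
  | succ m ih =>
    intro z
    obtain ⟨c, hc⟩ := exists_avoid ({0, 1, 2} : Finset k)
    simp only [Finset.mem_insert, Finset.mem_singleton, not_or] at hc
    obtain ⟨κ, h1, h2⟩ := ih (z - c)
    refine ⟨Fin.cons c κ, ?_, fun l => ?_⟩
    · rw [Fin.sum_univ_succ]
      simp [h1]
    · refine Fin.cases ?_ (fun l => ?_) l
      · exact hc
      · simpa using h2 l

/-- the Kronecker symbol -/
def dl {d : ℕ} (i l : Fin d) : k := if i = l then 1 else 0

lemma exists_kappa {d : ℕ} (hd : 0 < d) : ∃ κ : Fin d → k, ∑ l, κ l = 1 ∧ (∀ l, κ l ≠ 0) ∧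
    ∀ i j l : Fin d, dl i l + dl j l - κ l ≠ 0 := by
  rcases d with _ | _ | m
  · omega
  · refine ⟨fun _ => 1, by simp, fun _ => one_ne_zero, fun i j l => ?_⟩
    have h1 : i = l := by omega
    have h2 : j = l := by omega
    simp [dl, h1, h2]
  · obtain ⟨κ, h1, h2⟩ := exists_kappa_aux (k := k) m 1
    refine ⟨κ, h1, fun l => (h2 l).1, fun i j l h => ?_⟩
    obtain ⟨h3, h4, h5⟩ := h2 l
    unfold dl at h
    split_ifs at h
    · exact h5 (by linear_combination -h)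
    · exact h4 (by linear_combination -h)
    · exact h4 (by linear_combination -h)
    · exact h3 (by linear_combination -h)

variable {𝒜 : Type v} [CommRing 𝒜] [Algebra k⟦X⟧ 𝒜]

omit [Infinite k] in
/-- some coordinate of `1` is a unit -/
lemma exists_unit_coord {d : ℕ} (hd : 0 < d) (b : Module.Basis (Fin d) k⟦X⟧ 𝒜) :
    ∃ m, IsUnit (b.repr 1 m) := by
  by_contra hcon
  push Not at hcon
  have h1 : ∀ m, ∃ v, b.repr 1 m = X * v := fun m => by
    have h2 : constantCoeff (b.repr 1 m) = 0 := by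
      by_contra h
      exact hcon m (PowerSeries.isUnit_iff_constantCoeff.2 (isUnit_iff_ne_zero.2 h))
    exact X_dvd_iff.2 h2
  choose v hv using h1
  have h3 : (1 : 𝒜) = (X : k⟦X⟧) • ∑ m, v m • b m := by
    conv_lhs => rw [← b.sum_repr 1]
    rw [Finset.smul_sum]
    exact Finset.sum_congr rfl fun m _ => by rw [hv, mul_smul]
  have h4 := congrArg (fun x => b.repr (x * b ⟨0, hd⟩) ⟨0, hd⟩) h3
  simp only [one_mul, smul_mul_assoc, map_smul, Finsupp.smul_apply, smul_eq_mul,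
    Module.Basis.repr_self, Finsupp.single_eq_same] at h4
  have h5 := congrArg constantCoeff h4
  simp at h5

/-- a basis in which the coordinates of `1` are prescribed nonzero constants -/
lemma exists_basis_one {d : ℕ} (hd : 0 < d) (b : Module.Basis (Fin d) k⟦X⟧ 𝒜) (κ : Fin d → k)
    (hκ : ∀ l, κ l ≠ 0) : ∃ f : Module.Basis (Fin d) k⟦X⟧ 𝒜, ∀ l, f.repr 1 l = C (κ l) := by
  classical
  obtain ⟨m, hm⟩ := exists_unit_coord hd b
  obtain ⟨v, hv⟩ : ∃ v : 𝒜, v = ∑ l, (C (κ l) : k⟦X⟧) • b l := ⟨_, rfl⟩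
  obtain ⟨φ, hφ⟩ : ∃ φ : Module.Dual k⟦X⟧ 𝒜, φ = (C (κ m)⁻¹ : k⟦X⟧) • b.coord m := ⟨_, rfl⟩
  have hvl : ∀ l, b.repr v l = C (κ l) := by
    intro l
    rw [hv, map_sum, Finsupp.finsetSum_apply]
    simp [Finsupp.single_apply]
  have hφv : φ v = 1 := by
    rw [hφ, LinearMap.smul_apply, Module.Basis.coord_apply, hvl, smul_eq_mul, ← map_mul,
      inv_mul_cancel₀ (hκ m), map_one]
  have hu : IsUnit (1 + φ (1 - v)) := by
    rw [map_sub, hφv, add_sub_cancel, hφ, LinearMap.smul_apply, Module.Basis.coord_apply, smul_eq_mul]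
    exact (((isUnit_iff_ne_zero.2 (inv_ne_zero (hκ m))).map C).mul hm)
  refine ⟨b.map (LinearEquiv.dilatransvection hu), fun l => ?_⟩
  have h1 : (LinearEquiv.dilatransvection hu) v = 1 := by
    have : (LinearEquiv.dilatransvection hu) v = v + φ v • (1 - v) := rfl
    rw [this, hφv, one_smul]
    ring
  have h2 : (LinearEquiv.dilatransvection hu).symm 1 = v := by
    rw [LinearEquiv.symm_apply_eq]
    exact h1.symm
  rw [Module.Basis.map_repr, LinearEquiv.trans_apply, h2, hvl]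

lemma exists_unit_basis {d : ℕ} (b : Module.Basis (Fin d) k⟦X⟧ 𝒜) :
    ∃ e : Module.Basis (Fin d) k⟦X⟧ 𝒜, ∀ i j l, constantCoeff (e.repr (e i * e j) l) ≠ 0 := by
  classical
  rcases Nat.eq_zero_or_pos d with rfl | hd
  · exact ⟨b, fun i => i.elim0⟩
  obtain ⟨κ, hκ1, hκ0, hκ⟩ := exists_kappa (k := k) hd
  obtain ⟨f, hf⟩ := exists_basis_one hd b κ hκ0
  -- the coordinates of the products
  obtain ⟨β, hβ⟩ : ∃ β : Fin d → Fin d → Fin d → k⟦X⟧,
    β = fun i j l => f.repr ((f i - 1) * (f j - 1)) l := ⟨_, rfl⟩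
  obtain ⟨q, hq⟩ : ∃ q : Fin d → Fin d → Fin d → Polynomial k, q = fun i j l =>
    Polynomial.C (dl i l + dl j l - κ l) + Polynomial.X * Polynomial.C (constantCoeff (β i j l)) +
      (Polynomial.X ^ 2 - Polynomial.X) *
        Polynomial.C ((∑ m, constantCoeff (β i j m)) * κ l) := ⟨_, rfl⟩
  have hq0 : ∀ i j l, q i j l ≠ 0 := by
    intro i j l h
    have h1 := congrArg (Polynomial.eval 0) h
    rw [hq] at h1
    simp at h1
    exact hκ i j l h1
  obtain ⟨s, hs⟩ : ∃ s : k, ((∏ i, ∏ j, ∏ l, q i j l) * Polynomial.X).eval s ≠ 0 := by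
    by_contra hcon
    push Not at hcon
    have : (∏ i, ∏ j, ∏ l, q i j l) * Polynomial.X = 0 := Polynomial.funext fun s => by
      rw [hcon s, Polynomial.eval_zero]
    rw [mul_eq_zero] at this
    rcases this with h | h
    · simp only [Finset.prod_eq_zero_iff] at h
      obtain ⟨i, _, j, _, l, _, h⟩ := h
      exact hq0 i j l h
    · exact Polynomial.X_ne_zero h
  rw [Polynomial.eval_mul, mul_ne_zero_iff, Polynomial.eval_X] at hs
  obtain ⟨hs1, hs0⟩ := hs
  have hs2 : ∀ i j l, (q i j l).eval s ≠ 0 := by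
    intro i j l h
    apply hs1
    simp only [Polynomial.eval_prod, Finset.prod_eq_zero_iff]
    exact ⟨i, Finset.mem_univ _, j, Finset.mem_univ _, l, Finset.mem_univ _, h⟩
  -- the sum of the coordinates
  obtain ⟨σ, hσ⟩ : ∃ σ : 𝒜 →ₗ[k⟦X⟧] k⟦X⟧, σ = ∑ l, f.coord l := ⟨_, rfl⟩
  have hσa : ∀ x, σ x = ∑ l, f.repr x l := by
    intro x
    rw [hσ, LinearMap.sum_apply]
    rfl
  have hσ1 : σ 1 = 1 := by
    rw [hσa]
    simp only [hf]
    rw [← map_sum, hκ1, map_one]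
  have hσf : ∀ l, σ (f l) = 1 := by
    intro l
    rw [hσa]
    simp [Finsupp.single_apply]
  obtain ⟨c, hc⟩ : ∃ c : k⟦X⟧, c = C s := ⟨_, rfl⟩
  obtain ⟨c', hc'⟩ : ∃ c' : k⟦X⟧, c' = C s⁻¹ := ⟨_, rfl⟩
  have hcc : c * c' = 1 := by
    rw [hc, hc', ← map_mul, mul_inv_cancel₀ hs0, map_one]
  obtain ⟨E1, hE1⟩ : ∃ E1 : 𝒜 →ₗ[k⟦X⟧] 𝒜, ∀ x, E1 x = c • x + ((1 - c) * σ x) • (1 : 𝒜) :=
    ⟨c • LinearMap.id + ((1 - c) • σ).smulRight 1, fun x => by simp⟩
  obtain ⟨E2, hE2⟩ : ∃ E2 : 𝒜 →ₗ[k⟦X⟧] 𝒜, ∀ x, E2 x = c' • x + ((1 - c') * σ x) • (1 : 𝒜) :=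
    ⟨c' • LinearMap.id + ((1 - c') • σ).smulRight 1, fun x => by simp⟩
  have h12 : E1 ∘ₗ E2 = LinearMap.id := by
    ext x
    simp only [LinearMap.comp_apply, LinearMap.id_apply, hE1, hE2, map_add, map_smul, hσ1,
      smul_eq_mul, smul_add, smul_smul, mul_one]
    rw [hcc, one_smul, add_assoc, ← add_smul]
    have : c * ((1 - c') * σ x) + (1 - c) * (c' * σ x + (1 - c') * σ x) = 0 := by
      linear_combination (-σ x) * hcc
    rw [this, zero_smul, add_zero]
  have h21 : E2 ∘ₗ E1 = LinearMap.id := by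
    ext x
    simp only [LinearMap.comp_apply, LinearMap.id_apply, hE1, hE2, map_add, map_smul, hσ1,
      smul_eq_mul, smul_add, smul_smul, mul_one]
    rw [mul_comm c' c, hcc, one_smul, add_assoc, ← add_smul]
    have : c' * ((1 - c) * σ x) + (1 - c') * (c * σ x + (1 - c) * σ x) = 0 := by
      linear_combination (-σ x) * hcc
    rw [this, zero_smul, add_zero]
  obtain ⟨E, hE⟩ : ∃ E : 𝒜 ≃ₗ[k⟦X⟧] 𝒜, E = LinearEquiv.ofLinearMap E1 E2 h12 h21 := ⟨_, rfl⟩
  refine ⟨f.map E, fun i j l => ?_⟩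
  have hEi : ∀ i, f.map E i = 1 + c • (f i - 1) := by
    intro i
    rw [Module.Basis.map_apply, hE]
    show E1 (f i) = _
    rw [hE1, hσf, mul_one, sub_smul, one_smul, smul_sub]
    abel
  have hprod : f.map E i * f.map E j = 1 + c • (f i - 1) + c • (f j - 1) +
      (c * c) • ((f i - 1) * (f j - 1)) := by
    rw [hEi, hEi]
    simp only [mul_add, add_mul, one_mul, mul_one, smul_mul_assoc, mul_smul_comm, smul_add,
      mul_smul]
    abel
  have hrepr : ∀ x, (f.map E).repr x l = c' * f.repr x l + (1 - c') * σ x * C (κ l) := by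
    intro x
    rw [Module.Basis.map_repr, LinearEquiv.trans_apply, hE]
    show f.repr (E2 x) l = _
    rw [hE2, map_add, map_smul, map_smul, Finsupp.add_apply, Finsupp.smul_apply, Finsupp.smul_apply,
      hf, smul_eq_mul, smul_eq_mul]
  have hdl : ∀ i : Fin d, f.repr (f i) l = C (dl i l) := by
    intro i
    rw [Module.Basis.repr_self, Finsupp.single_apply]
    unfold dl
    split_ifs <;> simp
  have hx : f.repr (f.map E i * f.map E j) l = C (κ l) + c * (C (dl i l) - C (κ l)) +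
      c * (C (dl j l) - C (κ l)) + c * c * β i j l := by
    rw [hprod]
    simp only [map_add, map_sub, map_smul, Finsupp.add_apply, Finsupp.smul_apply, Finsupp.sub_apply,
      smul_eq_mul, hf, hdl, hβ]
  have hσx : σ (f.map E i * f.map E j) = 1 + c * c * ∑ m, β i j m := by
    rw [hprod]
    simp only [map_add, map_sub, map_smul, smul_eq_mul, hσ1, hσf, sub_self, mul_zero, add_zero]
    rw [hσa, hβ]
  rw [hrepr, hx, hσx]
  have hfin : c' * (C (κ l) + c * (C (dl i l) - C (κ l)) + c * (C (dl j l) - C (κ l)) +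
      c * c * β i j l) + (1 - c') * (1 + c * c * ∑ m, β i j m) * C (κ l) =
      C (dl i l) + C (dl j l) - C (κ l) + c * β i j l + (c ^ 2 - c) * ((∑ m, β i j m) * C (κ l)) := by
    linear_combination (C (dl i l) + C (dl j l) - 2 * C (κ l) + c * β i j l -
      c * (∑ m, β i j m) * C (κ l)) * hcc
  rw [hfin]
  have h9 := hs2 i j l
  rw [hq] at h9
  simp only [Polynomial.eval_add, Polynomial.eval_mul, Polynomial.eval_C, Polynomial.eval_X,
    Polynomial.eval_sub, Polynomial.eval_pow] at h9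
  simp only [map_add, map_sub, map_mul, map_pow, map_sum, hc, constantCoeff_C]
  exact h9

end Basis

section Main

variable {k : Type u} [Field k] [Infinite k]

lemma adBasis_eq_zero {𝒜 : Type v} [CommRing 𝒜] [Algebra k⟦X⟧ 𝒜] {d : ℕ}
    (e : Module.Basis (Fin d) k⟦X⟧ 𝒜) (h : ∀ i j l, IsUnit (strConst k e i j l)) :
    adBasis k e = 0 := by
  unfold adBasis
  have h1 : ∀ m ∈ {m : ℕ | ∃ i j l : Fin d, strConst k e i j l ≠ 0 ∧
      (strConst k e i j l).order = m}, m = 0 := by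
    rintro m ⟨i, j, l, h2, h3⟩
    have h4 : (strConst k e i j l).order = 0 := by
      by_contra h5
      have h6 : coeff 0 (strConst k e i j l) = 0 :=
        coeff_of_lt_order 0 (by exact_mod_cast (pos_iff_ne_zero.2 h5))
      rw [coeff_zero_eq_constantCoeff_apply] at h6
      exact (isUnit_iff_ne_zero.1 (PowerSeries.isUnit_iff_constantCoeff.1 (h i j l))) h6
    rw [h4] at h3
    exact_mod_cast h3.symm
  rcases Set.eq_empty_or_nonempty {m : ℕ | ∃ i j l : Fin d, strConst k e i j l ≠ 0 ∧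
      (strConst k e i j l).order = m} with h2 | h2
  · rw [h2]
    exact csSup_empty
  · exact h1 _ (Nat.sSup_mem h2 ⟨0, fun m hm => (h1 m hm).le⟩)

end Main

/-- **Every finite flat `k[[t]]`-algebra has approximation degree `0`.** -/
theorem result (k : Type u) [Field k] [IsAlgClosed k] :
    (∀ (𝒜 : Type v) [CommRing 𝒜] [Algebra k⟦X⟧ 𝒜] [Module.Finite k⟦X⟧ 𝒜] [Module.Flat k⟦X⟧ 𝒜],
      (∃ e : Module.Basis (Fin (Module.finrank k⟦X⟧ 𝒜)) k⟦X⟧ 𝒜,
        (∀ i j l, IsUnit (strConst k e i j l)) ∧ adBasis k e = 0) ∧ approxDegree k 𝒜 = 0) ∧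
    ∀ (A : Type v) [CommRing A] [Algebra k A] [Module.Finite k A],
      HasSplitSmoothing k A ⊤ → HasSplitSmoothing k A 0 := by
  have hinf : Infinite k := IsAlgClosed.instInfinite
  have h1 : ∀ (𝒜 : Type v) [CommRing 𝒜] [Algebra k⟦X⟧ 𝒜] [Module.Finite k⟦X⟧ 𝒜]
      [Module.Flat k⟦X⟧ 𝒜], ∃ e : Module.Basis (Fin (Module.finrank k⟦X⟧ 𝒜)) k⟦X⟧ 𝒜,
        (∀ i j l, IsUnit (strConst k e i j l)) ∧ adBasis k e = 0 := by
    intro 𝒜 _ _ _ _
    have : Module.Free k⟦X⟧ 𝒜 := Module.free_of_flat_of_isLocalRing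
    obtain ⟨e, he⟩ := exists_unit_basis (Module.finBasis k⟦X⟧ 𝒜)
    have h2 : ∀ i j l, IsUnit (strConst k e i j l) := fun i j l =>
      PowerSeries.isUnit_iff_constantCoeff.2 (isUnit_iff_ne_zero.2 (he i j l))
    exact ⟨e, h2, adBasis_eq_zero e h2⟩
  have h2 : ∀ (𝒜 : Type v) [CommRing 𝒜] [Algebra k⟦X⟧ 𝒜] [Module.Finite k⟦X⟧ 𝒜]
      [Module.Flat k⟦X⟧ 𝒜], approxDegree k 𝒜 = 0 := by
    intro 𝒜 _ _ _ _
    obtain ⟨e, _, he⟩ := h1 𝒜
    exact Nat.sInf_eq_zero.2 (Or.inl ⟨_, e, he⟩)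
  refine ⟨fun 𝒜 _ _ _ _ => ⟨h1 𝒜, h2 𝒜⟩, ?_⟩
  rintro A _ _ _ ⟨𝒜, _, _, _, _, h3, h4, _⟩
  have := h3.finite
  have := h3.flat
  refine ⟨𝒜, _, _, _, inferInstance, h3, h4, ?_⟩
  rw [h2 𝒜]
  simp

end Pool.Agent.Results.MP_a8f336_ag.DegreeZero
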